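import Pool.Agent.KS6_37.LSS.Perturb

set_option autoImplicit false

/-!
# Hypergraph LSS ideals above the pmd bound: domains, unit coefficients, lower-degree terms

Let `R` be an integral domain, `E` a clutter of nonempty subsets of a finite set `V` and
`d ≥ pmd(E) + 1`. For all units `c (A, j)` and all polynomials `r A` of total degree less than
`|A|` the polynomials `F_A = ∑_j c (A, j) ∏_(i ∈ A) y (i, j) + r A`, `A ∈ E`, generate a prime
ideal, and so does every subfamily; every `F_A` is a nonzerodivisor modulo every ideal generated by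
other members of the family, so the family is a regular sequence in every order. The case of a
field with `c = 1` and `r = 0` is the hypergraph LSS ideal `L_H(d)`.

Idea: give the variables of the first column weights coming from a positive matching `M`, so that
the first column disappears from the edges outside `M`; the special fibre is prime because its
generators for `A ∈ M` are `unit * ∏_(i ∈ A) X i + (nonzero constant)` over the domain
`R[other columns] / (generators outside M)`. Primeness lifts from the special to the general fibre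
of such a homogeneous degeneration; the standard grading gives the terms `r A`.
-/

namespace Pool.Agent.Results.MP_c79496_ag.DomainsUnitCoefficients

open MvPolynomial

universe u v

variable {V : Type v} [Fintype V] [DecidableEq V]

omit [Fintype V] [DecidableEq V] in
/-- The edges are nonempty and no edge is contained in another edge. -/
def IsClutter (E : Finset (Finset V)) : Prop :=
  (∀ A ∈ E, A.Nonempty) ∧ ∀ A ∈ E, ∀ B ∈ E, A ⊆ B → A = B

omit [Fintype V] in
/-- `M` is a positive matching of the hypergraph with edge set `E`. -/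
def IsPosMatching (E M : Finset (Finset V)) : Prop :=
  M ⊆ E ∧ (∀ A ∈ M, ∀ B ∈ M, A ≠ B → Disjoint A B) ∧
    ∃ w : V → ℝ, (∀ A ∈ M, 0 < ∑ i ∈ A, w i) ∧ ∀ A ∈ E \ M, ∑ i ∈ A, w i < 0

omit [Fintype V] in
/-- `P 0, …, P (p-1)` is a positive matching decomposition of `E`: `E` is the union of these sets
and `P i` is a positive matching of `E \ (P 0 ∪ ⋯ ∪ P (i-1))` (in particular disjoint from the
earlier ones). -/
def IsPMD (E : Finset (Finset V)) (p : ℕ) (P : ℕ → Finset (Finset V)) : Prop :=
  E = (Finset.range p).biUnion P ∧ ∀ i < p, IsPosMatching (E \ (Finset.range i).biUnion P) (P i)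

omit [Fintype V] in
/-- The least number of parts of a positive matching decomposition. -/
noncomputable def pmd (E : Finset (Finset V)) : ℕ := sInf {p | ∃ P, IsPMD E p P}

omit [Fintype V] [DecidableEq V] in
/-- `F_A = ∑_j c (A, j) ∏_(i ∈ A) y (i, j) + r A`. -/
noncomputable def gen {R : Type u} [CommRing R] {d : ℕ} (c : Finset V → Fin d → R)
    (r : Finset V → MvPolynomial (V × Fin d) R) (A : Finset V) : MvPolynomial (V × Fin d) R :=
  ∑ j : Fin d, C (c A j) * ∏ i ∈ A, X (i, j) + r A

open Pool.Agent.KS6_37.LSS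

lemma exists_pmd {E : Finset (Finset V)} (hE : IsClutter E) : ∃ p P, IsPMD E p P := by
  let P : ℕ → Finset (Finset V) := fun i =>
    if h : i < E.card then {(E.equivFin.symm ⟨i, h⟩ : Finset V)} else ∅
  refine ⟨E.card, P, ?_, fun i hi => ?_⟩
  · ext A
    simp only [Finset.mem_biUnion, Finset.mem_range]
    constructor
    · intro hA
      exact ⟨E.equivFin ⟨A, hA⟩, (E.equivFin ⟨A, hA⟩).2, by simp [P]⟩
    · rintro ⟨i, hi, hA⟩
      simp only [P, dif_pos hi, Finset.mem_singleton] at hA
      rw [hA]; exact (E.equivFin.symm ⟨i, hi⟩).2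
  · have hP : P i = {(E.equivFin.symm ⟨i, hi⟩ : Finset V)} := by simp only [P, dif_pos hi]
    have hA := (E.equivFin.symm ⟨i, hi⟩).2
    rw [hP]
    refine ⟨?_, by simp, fun k => if k ∈ (E.equivFin.symm ⟨i, hi⟩ : Finset V) then 1 else -Fintype.card V, ?_, ?_⟩
    · rw [Finset.singleton_subset_iff, Finset.mem_sdiff]
      refine ⟨hA, fun h => ?_⟩
      obtain ⟨j, hj, h⟩ := Finset.mem_biUnion.1 h
      have hj' := Finset.mem_range.1 hj
      simp only [P, dif_pos (hj'.trans hi), Finset.mem_singleton] at h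
      have := E.equivFin.symm.injective (Subtype.ext h)
      simp at this; omega
    · intro A h
      rw [Finset.mem_singleton.1 h]
      exact Finset.sum_pos (fun k hk => by simp [hk]) (hE.1 _ hA)
    · intro B hB
      have hBE : B ∈ E := (Finset.mem_sdiff.1 (Finset.mem_sdiff.1 hB).1).1
      have hne := (Finset.mem_sdiff.1 hB).2
      rw [Finset.mem_singleton] at hne
      obtain ⟨k, hk, hk'⟩ := Finset.not_subset.1 fun h => hne (hE.2 B hBE _ hA h)
      rw [← Finset.add_sum_erase _ _ hk, if_neg hk']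
      have h1 : ∑ x ∈ B.erase k, (if x ∈ (E.equivFin.symm ⟨i, hi⟩ : Finset V) then (1 : ℝ) else -Fintype.card V)
          ≤ ∑ _x ∈ B.erase k, (1 : ℝ) := Finset.sum_le_sum fun x _ => by
        split_ifs
        · exact le_rfl
        · have : (0 : ℝ) ≤ Fintype.card V := Nat.cast_nonneg _
          linarith
      have h2 : (B.erase k).card < Fintype.card V := by
        have := Finset.card_erase_lt_of_mem hk
        have := Finset.card_le_univ B
        omega
      have h3 : ((B.erase k).card : ℝ) < Fintype.card V := by exact_mod_cast h2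
      simp only [Finset.sum_const, nsmul_eq_mul, mul_one] at h1
      linarith

lemma weights {E M : Finset (Finset V)} (hE : ∀ A ∈ E, A.Nonempty) (h : IsPosMatching E M) :
    ∃ (N : ℕ) (u : V → ℕ) (g : Finset V → ℕ),
      (∀ A ∈ E, g A + ∑ i ∈ A, u i = N * A.card) ∧ ∀ A ∈ E, g A = 0 ↔ A ∈ M := by
  obtain ⟨hME, hdis, w, hw1, hw2⟩ := h
  let k : ℕ := M.sup (fun A => ⌈(A.card : ℝ) / ∑ i ∈ A, w i⌉₊) + 1
  have hk0 : (0 : ℝ) < k := by positivity
  have hk : ∀ A ∈ M, (A.card : ℝ) ≤ k * ∑ i ∈ A, w i := by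
    intro A hA
    rw [← div_le_iff₀ (hw1 A hA)]
    refine (Nat.le_ceil _).trans ?_
    have := Finset.le_sup (f := fun A : Finset V => ⌈(A.card : ℝ) / ∑ i ∈ A, w i⌉₊) hA
    exact_mod_cast this.trans (Nat.le_succ _)
  let z : V → ℤ := fun i => ⌊k * w i⌋
  have hz1 : ∀ A ∈ M, 0 ≤ ∑ i ∈ A, z i := by
    intro A hA
    have h1 : ∑ i ∈ A, (k * w i - 1) ≤ ∑ i ∈ A, (z i : ℝ) :=
      Finset.sum_le_sum fun i _ => (Int.sub_one_lt_floor _).le
    rw [Finset.sum_sub_distrib, ← Finset.mul_sum] at h1
    simp only [Finset.sum_const, nsmul_eq_mul, mul_one] at h1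
    have h2 : (0 : ℝ) ≤ ∑ i ∈ A, (z i : ℝ) := by linarith [hk A hA]
    exact_mod_cast h2
  have hz2 : ∀ A ∈ E \ M, ∑ i ∈ A, z i < 0 := by
    intro A hA
    have h1 : ∑ i ∈ A, (z i : ℝ) ≤ ∑ i ∈ A, (k * w i) := Finset.sum_le_sum fun i _ => Int.floor_le _
    rw [← Finset.mul_sum] at h1
    have h2 : ∑ i ∈ A, (z i : ℝ) < 0 := h1.trans_lt (mul_neg_of_pos_of_neg hk0 (hw2 A hA))
    exact_mod_cast h2
  have hρ : ∀ A : Finset V, ∃ o : Option V, A ∈ M → ∃ i ∈ A, o = some i := by
    intro A
    by_cases h : A ∈ M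
    · obtain ⟨i, hi⟩ := hE A (hME h)
      exact ⟨some i, fun _ => ⟨i, hi, rfl⟩⟩
    · exact ⟨none, fun h' => absurd h' h⟩
  choose ρ hρ using hρ
  let e : V → ℤ := fun i => z i - ∑ B ∈ M, if ρ B = some i then ∑ j ∈ B, z j else 0
  have he1 : ∀ A ∈ M, ∑ i ∈ A, e i = 0 := by
    intro A hA
    obtain ⟨i0, hi0, h0⟩ := hρ A hA
    simp only [e, Finset.sum_sub_distrib]
    rw [Finset.sum_comm, Finset.sum_eq_single A]
    · simp [h0, hi0]
    · intro B hB hBA
      refine Finset.sum_eq_zero fun i hi => if_neg fun h => ?_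
      obtain ⟨j0, hj0, hj⟩ := hρ B hB
      rw [hj] at h
      obtain rfl := Option.some.inj h
      exact Finset.disjoint_left.1 (hdis B hB A hA hBA) hj0 hi
    · exact fun h => absurd hA h
  have he2 : ∀ A ∈ E \ M, ∑ i ∈ A, e i < 0 := by
    intro A hA
    refine lt_of_le_of_lt (Finset.sum_le_sum fun i _ => ?_) (hz2 A hA)
    refine sub_le_self _ (Finset.sum_nonneg fun B hB => ?_)
    split_ifs
    · exact hz1 B hB
    · exact le_rfl
  let N : ℕ := Finset.univ.sup fun i => (-e i).toNat
  have hN : ∀ i, 0 ≤ (N : ℤ) + e i := fun i => by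
    have := Finset.le_sup (f := fun i => (-e i).toNat) (Finset.mem_univ i)
    have h2 : (-e i).toNat ≤ N := this
    omega
  have hle : ∀ A ∈ E, ∑ i ∈ A, e i ≤ 0 := fun A hA => by
    by_cases h : A ∈ M
    · exact (he1 A h).le
    · exact (he2 A (Finset.mem_sdiff.2 ⟨hA, h⟩)).le
  refine ⟨N, fun i => (N + e i).toNat, fun A => (-∑ i ∈ A, e i).toNat, fun A hA => ?_, fun A hA => ?_⟩
  · have h1 : ((∑ i ∈ A, ((N : ℤ) + e i).toNat : ℕ) : ℤ) = N * A.card + ∑ i ∈ A, e i := by
      push_cast
      rw [Finset.sum_congr rfl fun i _ => Int.toNat_of_nonneg (hN i), Finset.sum_add_distrib]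
      simp [mul_comm]
    have h2 := hle A hA
    zify at h1 ⊢
    rw [h1, Int.toNat_of_nonneg (by omega)]
    ring
  · constructor
    · intro h
      by_contra hM
      have := he2 A (Finset.mem_sdiff.2 ⟨hA, hM⟩)
      have h' : (-∑ i ∈ A, e i).toNat = 0 := h
      omega
    · intro h
      simp [he1 A h]


lemma prime_units {R : Type u} [CommRing R] [IsDomain R] (E : Finset (Finset V))
    (hE : IsClutter E) (d : ℕ) (hd : pmd E + 1 ≤ d) (c : Finset V → Fin d → R)
    (hc : ∀ A j, IsUnit (c A j)) : ∀ E' ⊆ E, (L c E').IsPrime := by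
  obtain ⟨P, hP1, hP2⟩ : ∃ P, IsPMD E (pmd E) P :=
    Nat.sInf_mem (s := {p | ∃ P, IsPMD E p P}) (exists_pmd hE)
  have key : ∀ m ≤ pmd E, ∀ d, m + 1 ≤ d → ∀ c : Finset V → Fin d → R,
      (∀ A j, IsUnit (c A j)) →
      ∀ E' ⊆ E \ (Finset.range (pmd E - m)).biUnion P, (L c E').IsPrime := by
    intro m
    induction m with
    | zero =>
      intro _ d _ c _ E' h
      rw [Nat.sub_zero, ← hP1, Finset.sdiff_self, Finset.subset_empty] at h
      subst h
      simpa [L] using Ideal.isPrime_bot
    | succ m ih =>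
      intro hm d hd c hc
      obtain ⟨d, rfl⟩ : ∃ d', d = d' + 1 := ⟨d - 1, by omega⟩
      have hM := hP2 (pmd E - (m + 1)) (by omega)
      have hC : Clutter (E \ (Finset.range (pmd E - (m + 1))).biUnion P) :=
        ⟨fun A hA => hE.1 A (Finset.mem_sdiff.1 hA).1,
          fun A hA B hB => hE.2 A (Finset.mem_sdiff.1 hA).1 B (Finset.mem_sdiff.1 hB).1⟩
      obtain ⟨N, u, g, h1, h2⟩ := weights hC.1 hM
      refine step (by omega) hc hC hM.2.1 N u g h1 h2 fun E' h =>
        ih (by omega) d (by omega) _ (fun A j => hc A _) E' ?_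
      rw [show pmd E - m = (pmd E - (m + 1)) + 1 by omega, Finset.range_add_one, Finset.biUnion_insert]
      intro A hA
      have := h hA
      simp only [Finset.mem_sdiff, Finset.mem_union] at this ⊢
      tauto
  intro E' h
  exact key (pmd E) le_rfl d hd c hc E' (by simpa using h)

/-- **Theorem.** Let `R` be an integral domain, `E` a clutter of nonempty subsets of the finite set
`V`, `d ≥ pmd(E) + 1`, let `c A j` (`A ∈ E`, `j < d`) be units of `R` and `r A` (`A ∈ E`)
polynomials of total degree less than `|A|`. Then for every `E' ⊆ E` the ideal generated by the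
`F_A = ∑_j c (A, j) ∏_(i ∈ A) y (i, j) + r A`, `A ∈ E'`, is prime, and every `F_A` with
`A ∈ E \ E'` does not lie in it and is a nonzerodivisor modulo it. The minimum in the definition of
`pmd(E)` is attained. -/
theorem result (R : Type u) [CommRing R] [IsDomain R] (E : Finset (Finset V)) (hE : IsClutter E) :
    (∃ P, IsPMD E (pmd E) P) ∧
    ∀ d : ℕ, pmd E + 1 ≤ d → ∀ c : Finset V → Fin d → R, (∀ A ∈ E, ∀ j, IsUnit (c A j)) →
      ∀ r : Finset V → MvPolynomial (V × Fin d) R, (∀ A ∈ E, (r A).totalDegree < A.card) →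
        ∀ E' ⊆ E, (Ideal.span (gen c r '' (E' : Set (Finset V)))).IsPrime ∧
          ∀ A ∈ E, A ∉ E' → gen c r A ∉ Ideal.span (gen c r '' (E' : Set (Finset V))) ∧
            ∀ x, gen c r A * x ∈ Ideal.span (gen c r '' (E' : Set (Finset V))) →
              x ∈ Ideal.span (gen c r '' (E' : Set (Finset V))) := by
  classical
  refine ⟨Nat.sInf_mem (s := {p | ∃ P, IsPMD E p P}) (exists_pmd hE), fun d hd c hc r hr => ?_⟩
  let c' : Finset V → Fin d → R := fun A j => if A ∈ E then c A j else 1
  have hc' : ∀ A j, IsUnit (c' A j) := fun A j => by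
    by_cases h : A ∈ E
    · simpa [c', h] using hc A h j
    · simp [c', h]
  have hcc : ∀ A ∈ E, f c' A + r A = gen c r A := fun A hA => by
    simp [f, gen, c', hA]
  have hdeg : ∀ A ∈ E, (f c' A).IsHomogeneous A.card := by
    intro A _
    refine IsHomogeneous.sum _ _ _ fun j _ => ?_
    have h1 := (isHomogeneous_C (V × Fin d) (c' A j)).mul
      (IsHomogeneous.prod A (fun i => (X (i, j) : MvPolynomial (V × Fin d) R)) (fun _ => 1)
        fun i _ => isHomogeneous_X R (i, j))
    simpa using h1
  have h := perturb E (f c') r (fun A => A.card) hdeg hr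
    (fun E' h => prime_units E hE d hd c' hc' E' h)
    (fun E' h A hA hA' => f_notMem (by omega) hc' hE h hA hA')
  have him : ∀ E' ⊆ E, (fun A => f c' A + r A) '' (E' : Set (Finset V)) =
      gen c r '' (E' : Set (Finset V)) :=
    fun E' h => Set.image_congr fun A hA => hcc A (h hA)
  intro E' hE'
  have h2 := h E' hE'
  rw [him E' hE'] at h2
  refine ⟨h2.1, fun A hA hA' => ?_⟩
  have h3 := h2.2 A hA hA'
  rw [hcc A hA] at h3
  exact ⟨h3, fun x hx => (h2.1.mem_or_mem hx).resolve_left h3⟩

end Pool.Agent.Results.MP_c79496_ag.DomainsUnitCoefficients
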